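import Pool.Agent.K6.H7.UN.Rep

set_option autoImplicit false
set_option linter.unusedSectionVars false

/-! # Paths with disjoint blocks: the construction -/

namespace Pool.Agent.K6.H7.UN

open MvPolynomial Pool.Agent.N165.CU Pool.Agent.K6.H7.SC

/-- the sum of the products of consecutive elements -/
noncomputable def pathSum {α : Type} : List α → MvPolynomial α ℤ
  | [] => 0
  | [_] => 0
  | a :: b :: l => X a * X b + pathSum (b :: l)

theorem pathSum_cons {α : Type} (a b : α) (l : List α) :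
    pathSum (a :: b :: l) = X a * X b + pathSum (b :: l) := rfl

theorem pathSum_map {α α' : Type} (g : α → α') : ∀ l : List α,
    pathSum (l.map g) = rename g (pathSum l)
  | [] => (map_zero _).symm
  | [_] => (map_zero _).symm
  | a :: b :: l => by
    have ih := pathSum_map g (b :: l)
    rw [List.map_cons] at ih
    rw [List.map_cons, List.map_cons, pathSum_cons, pathSum_cons, map_add, map_mul, rename_X,
      rename_X, ih]

/-- the sum of the products of the pairs -/
noncomputable def pairSum {α D : Type} [Fintype D] (δ : D × Bool → α) : MvPolynomial α ℤ :=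
  ∑ d, X (δ (d, false)) * X (δ (d, true))

theorem pairSum_map {α α' D : Type} [Fintype D] (g : α → α') (δ : D × Bool → α) :
    pairSum (g ∘ δ) = rename g (pairSum δ) := by
  unfold pairSum
  rw [map_sum]
  refine Finset.sum_congr rfl fun d _ => ?_
  rw [map_mul, rename_X, rename_X]
  rfl

/-- A stage of the construction: a path `s :: l` in the set of variables `α`, the places `θ j` of the
elements `j` of the blocks, and pairs `δ`. -/
structure Cfg {W J β : Type} (c : MvPolynomial β ℤ) (B : MvPolynomial J ℤ) (ρ : J → W)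
    (Dn Pd : Set J) (V : Set W) : Type 1 where
  α : Type
  s : α
  l : List α
  θ : J → α
  ν : W → α
  D : Type
  fD : Fintype D
  δ : D × Bool → α
  k : ℕ
  rep : Rep c (rename θ B + pairSum δ + pathSum (s :: l)) k
  two : 2 ≤ k
  nodup : (s :: l).Nodup
  ν_not : ∀ w ∈ V, ν w ∉ s :: l
  ν_inj : Set.InjOn ν V
  cover : ∀ a, a ∈ s :: l ∨ ∃ w ∈ V, ν w = a
  pend : ∀ j ∈ Pd, θ j = s
  rest : ∀ j, j ∉ Dn → j ∉ Pd → θ j = ν (ρ j)
  dmem : ∀ j ∈ Dn, θ j ∈ s :: l
  δmem : ∀ x, δ x ∈ s :: l
  θinj : Set.InjOn θ Dn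
  δinj : Function.Injective δ
  sep : ∀ j ∈ Dn, ∀ x, θ j ≠ δ x

variable {W J β : Type} {c : MvPolynomial β ℤ} {B : MvPolynomial J ℤ} {ρ : J → W}

/-- the end of the path is not in a block -/
def Cfg.Free {Dn Pd : Set J} {V : Set W} (C : Cfg c B ρ Dn Pd V) : Prop :=
  (∀ j ∈ Dn, C.θ j ≠ C.s) ∧ ∀ x, C.δ x ≠ C.s

open Classical in
/-- **The copy step.** -/
theorem eqStep {Dn Pd : Set J} {V : Set W} (C : Cfg c B ρ Dn Pd V) (S : Set J) (hS : S ⊆ Pd)
    (hsub : S.Subsingleton) (hfree : S = ∅ ∨ C.Free) (hdisj : Disjoint Dn Pd) :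
    ∃ C' : Cfg c B ρ (Dn ∪ S) (Pd \ S) V, C'.Free := by
  obtain ⟨α, s, l, θ, ν, D, fD, δ, k, rep, two, nodup, ν_not, ν_inj, cover, pend, rest, dmem, δmem,
    θinj, δinj, sep⟩ := C
  set θ' : J → α ⊕ (Fin 2 ⊕ Fin 2) := fun j =>
    if j ∈ Pd \ S then Sum.inr (Sum.inr 1) else Sum.inl (θ j) with hθ'
  have hpos : ∀ j, j ∈ Pd \ S → θ' j = Sum.inr (Sum.inr 1) := fun j hj => if_pos hj
  have hneg : ∀ j, j ∉ Pd \ S → θ' j = Sum.inl (θ j) := fun j hj => if_neg hj
  have hmem : ∀ a, a ∈ s :: l → (Sum.inl a : α ⊕ (Fin 2 ⊕ Fin 2)) ∈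
      (Sum.inr (Sum.inr 1) :: Sum.inr (Sum.inl 1) :: Sum.inr (Sum.inr 0) ::
        Sum.inr (Sum.inl 0) :: (s :: l).map Sum.inl : List (α ⊕ (Fin 2 ⊕ Fin 2))) := by
    intro a ha
    refine List.mem_cons_of_mem _ (List.mem_cons_of_mem _ (List.mem_cons_of_mem _
      (List.mem_cons_of_mem _ (List.mem_map_of_mem ha))))
  have hmem' : ∀ a, (Sum.inl a : α ⊕ (Fin 2 ⊕ Fin 2)) ∈
      (Sum.inr (Sum.inr 1) :: Sum.inr (Sum.inl 1) :: Sum.inr (Sum.inr 0) ::
        Sum.inr (Sum.inl 0) :: (s :: l).map Sum.inl : List (α ⊕ (Fin 2 ⊕ Fin 2))) →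
      a ∈ s :: l := by
    intro a ha
    rw [List.mem_cons, List.mem_cons, List.mem_cons, List.mem_cons] at ha
    rcases ha with h | h | h | h | h
    · exact absurd h (by simp)
    · exact absurd h (by simp)
    · exact absurd h (by simp)
    · exact absurd h (by simp)
    · obtain ⟨b, hb, hab⟩ := List.mem_map.1 h
      rwa [← Sum.inl_injective hab]
  have hDS : ∀ j ∈ Dn ∪ S, j ∉ Pd \ S := by
    rintro j (hj | hj) h
    · exact Set.disjoint_left.1 hdisj hj h.1
    · exact h.2 hj
  have hθs : ∀ j ∈ S, θ j = s := fun j hj => pend j (hS hj)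
  refine ⟨⟨α ⊕ (Fin 2 ⊕ Fin 2), Sum.inr (Sum.inr 1), Sum.inr (Sum.inl 1) :: Sum.inr (Sum.inr 0) ::
    Sum.inr (Sum.inl 0) :: (s :: l).map Sum.inl, θ', Sum.inl ∘ ν, D, fD, Sum.inl ∘ δ, k + 2,
    ?_, by omega, ?_, ?_, ?_, ?_, ?_, ?_, ?_, ?_, ?_, ?_, ?_⟩, ?_⟩
  · -- rep
    rw [add_assoc] at rep
    have h1 := Rep.copy s θ B _ rep θ' (fun j => by
      by_cases hj : j ∈ Pd \ S
      · exact Or.inr ⟨hpos j hj, pend j hj.1⟩
      · exact Or.inl (hneg j hj))
    have h2 : rename θ' B + rename Sum.inl (pairSum δ + pathSum (s :: l)) +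
      (X (Sum.inr (Sum.inl 0)) * (X (Sum.inr (Sum.inr 0)) + X (Sum.inl s)) +
        X (Sum.inr (Sum.inl 1)) * (X (Sum.inr (Sum.inr 1)) + X (Sum.inr (Sum.inr 0)))) =
      rename θ' B + pairSum (Sum.inl ∘ δ) + pathSum (Sum.inr (Sum.inr 1) ::
        Sum.inr (Sum.inl 1) :: Sum.inr (Sum.inr 0) ::
        Sum.inr (Sum.inl 0) :: (s :: l).map Sum.inl : List (α ⊕ (Fin 2 ⊕ Fin 2))) := by
      rw [map_add, pairSum_map, List.map_cons, pathSum_cons, pathSum_cons, pathSum_cons,
        pathSum_cons, ← List.map_cons, pathSum_map]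
      ring
    rw [h2] at h1
    exact h1
  · -- nodup
    rw [List.nodup_cons, List.nodup_cons, List.nodup_cons, List.nodup_cons]
    refine ⟨?_, ?_, ?_, ?_, nodup.map Sum.inl_injective⟩
    · simp
    · simp
    · simp
    · simp
  · -- ν_not
    intro w hw h
    exact ν_not w hw (hmem' _ h)
  · -- ν_inj
    intro w hw w' hw' h
    exact ν_inj hw hw' (Sum.inl_injective h)
  · -- cover
    rintro (a | i | i)
    · rcases cover a with h | ⟨w, hw, h⟩
      · exact Or.inl (hmem a h)
      · exact Or.inr ⟨w, hw, congrArg Sum.inl h⟩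
    · left
      fin_cases i <;> simp
    · left
      fin_cases i <;> simp
  · -- pend
    exact hpos
  · -- rest
    intro j hj1 hj2
    have hj3 : j ∉ Pd := fun h => hj2 ⟨h, fun h' => hj1 (Or.inr h')⟩
    rw [hneg j hj2, rest j (fun h => hj1 (Or.inl h)) hj3]
    rfl
  · -- dmem
    intro j hj
    rw [hneg j (hDS j hj)]
    refine hmem _ ?_
    rcases hj with hj | hj
    · exact dmem j hj
    · rw [hθs j hj]
      exact List.mem_cons_self
  · -- δmem
    intro x
    exact hmem _ (δmem x)
  · -- θinj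
    intro j hj j' hj' h
    rw [hneg j (hDS j hj), hneg j' (hDS j' hj')] at h
    have h1 := Sum.inl_injective h
    rcases hj with hj | hj <;> rcases hj' with hj' | hj'
    · exact θinj hj hj' h1
    · rcases hfree with h2 | h2
      · rw [h2] at hj'
        exact absurd hj' (Set.notMem_empty _)
      · rw [hθs j' hj'] at h1
        exact absurd h1 (h2.1 j hj)
    · rcases hfree with h2 | h2
      · rw [h2] at hj
        exact absurd hj (Set.notMem_empty _)
      · rw [hθs j hj] at h1
        exact absurd h1.symm (h2.1 j' hj')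
    · exact hsub hj hj'
  · -- δinj
    exact Sum.inl_injective.comp δinj
  · -- sep
    intro j hj x h
    rw [hneg j (hDS j hj)] at h
    have h1 := Sum.inl_injective h
    rcases hj with hj | hj
    · exact sep j hj x h1
    · rcases hfree with h2 | h2
      · rw [h2] at hj
        exact absurd hj (Set.notMem_empty _)
      · rw [hθs j hj] at h1
        exact h2.2 x h1.symm
  · -- free
    refine ⟨fun j hj h => ?_, fun x h => ?_⟩
    · change θ' j = Sum.inr (Sum.inr 1) at h
      rw [hneg j (hDS j hj)] at h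
      exact absurd h (by simp)
    · exact absurd h (by simp)

/-- **The cut step.** -/
theorem cutStep {Dn : Set J} {V : Set W} {w : W} (C : Cfg c B ρ Dn ∅ (insert w V)) (hw : w ∉ V)
    (hfree : C.Free) (hDn : ∀ j ∈ Dn, ρ j ≠ w) : Nonempty (Cfg c B ρ Dn {j | ρ j = w} V) := by
  obtain ⟨α, s, l, θ, ν, D, fD, δ, k, rep, two, nodup, ν_not, ν_inj, cover, pend, rest, dmem, δmem,
    θinj, δinj, sep⟩ := C
  have hwm : w ∈ insert w V := Set.mem_insert _ _
  have ht : ν w ∉ s :: l := ν_not w hwm
  have hst : s ≠ ν w := fun h => ht (h ▸ List.mem_cons_self)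
  have hmem : ∀ a, a ∈ s :: l → (Sum.inl a : α ⊕ (Fin 1 ⊕ Fin 1)) ∈
      (Sum.inl (ν w) :: Sum.inr (Sum.inr 0) :: Sum.inr (Sum.inl 0) ::
        (s :: l).map Sum.inl : List (α ⊕ (Fin 1 ⊕ Fin 1))) := by
    intro a ha
    refine List.mem_cons_of_mem _ (List.mem_cons_of_mem _ (List.mem_cons_of_mem _
      (List.mem_map_of_mem ha)))
  have hmem' : ∀ a, (Sum.inl a : α ⊕ (Fin 1 ⊕ Fin 1)) ∈
      (Sum.inl (ν w) :: Sum.inr (Sum.inr 0) :: Sum.inr (Sum.inl 0) ::
        (s :: l).map Sum.inl : List (α ⊕ (Fin 1 ⊕ Fin 1))) → a = ν w ∨ a ∈ s :: l := by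
    intro a ha
    rw [List.mem_cons, List.mem_cons, List.mem_cons] at ha
    rcases ha with h | h | h | h
    · exact Or.inl (Sum.inl_injective h)
    · exact absurd h (by simp)
    · exact absurd h (by simp)
    · obtain ⟨b, hb, hab⟩ := List.mem_map.1 h
      right
      rwa [← Sum.inl_injective hab]
  have hhead : (Sum.inl (ν w) : α ⊕ (Fin 1 ⊕ Fin 1)) ∈
      (Sum.inl (ν w) :: Sum.inr (Sum.inr 0) :: Sum.inr (Sum.inl 0) ::
        (s :: l).map Sum.inl : List (α ⊕ (Fin 1 ⊕ Fin 1))) := List.mem_cons_self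
  set δ' : Option D × Bool → α ⊕ (Fin 1 ⊕ Fin 1) := fun x =>
    match x with
    | (none, false) => Sum.inl s
    | (none, true) => Sum.inl (ν w)
    | (some d, b) => Sum.inl (δ (d, b)) with hδ'
  refine ⟨⟨α ⊕ (Fin 1 ⊕ Fin 1), Sum.inl (ν w), Sum.inr (Sum.inr 0) :: Sum.inr (Sum.inl 0) ::
    (s :: l).map Sum.inl, Sum.inl ∘ θ, Sum.inl ∘ ν, Option D, inferInstance, δ', k + 1,
    ?_, by omega, ?_, ?_, ?_, ?_, ?_, ?_, ?_, ?_, ?_, ?_, ?_⟩⟩
  · -- rep
    have h1 := Rep.cut s (ν w) _ rep
    have h3 : pairSum δ' = X (Sum.inl s) * X (Sum.inl (ν w)) + rename Sum.inl (pairSum δ) := by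
      unfold pairSum
      rw [Fintype.sum_option, map_sum]
      congr 1
      refine Finset.sum_congr rfl fun d _ => ?_
      rw [map_mul, rename_X, rename_X]
    have h2 : rename Sum.inl (rename θ B + pairSum δ + pathSum (s :: l)) +
      (X (Sum.inr (Sum.inl 0)) + X (Sum.inl (ν w))) *
        (X (Sum.inr (Sum.inr 0)) + X (Sum.inl s)) =
      rename (Sum.inl ∘ θ) B + pairSum δ' + pathSum (Sum.inl (ν w) ::
        Sum.inr (Sum.inr 0) :: Sum.inr (Sum.inl 0) ::
        (s :: l).map Sum.inl : List (α ⊕ (Fin 1 ⊕ Fin 1))) := by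
      rw [map_add, map_add, rename_rename, h3, List.map_cons, pathSum_cons, pathSum_cons,
        pathSum_cons, ← List.map_cons, pathSum_map]
      ring
    rw [h2] at h1
    exact h1
  · -- nodup
    rw [List.nodup_cons, List.nodup_cons, List.nodup_cons]
    refine ⟨?_, ?_, ?_, nodup.map Sum.inl_injective⟩
    · intro h
      rw [List.mem_cons, List.mem_cons] at h
      rcases h with h | h | h
      · exact absurd h (by simp)
      · exact absurd h (by simp)
      · obtain ⟨b, hb, hab⟩ := List.mem_map.1 h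
        rw [Sum.inl_injective hab] at hb
        exact ht hb
    · simp
    · simp
  · -- ν_not
    intro w' hw' h
    rcases hmem' _ h with h1 | h1
    · have := ν_inj (Set.mem_insert_of_mem _ hw') hwm h1
      exact hw (this ▸ hw')
    · exact ν_not w' (Set.mem_insert_of_mem _ hw') h1
  · -- ν_inj
    intro w1 hw1 w' hw' h
    exact ν_inj (Set.mem_insert_of_mem _ hw1) (Set.mem_insert_of_mem _ hw') (Sum.inl_injective h)
  · -- cover
    rintro (a | i | i)
    · rcases cover a with h | ⟨w', hw', h⟩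
      · exact Or.inl (hmem a h)
      · rcases hw' with h2 | h2
        · left
          rw [← h, h2]
          exact hhead
        · exact Or.inr ⟨w', h2, congrArg Sum.inl h⟩
    · left
      fin_cases i
      simp
    · left
      fin_cases i
      simp
  · -- pend
    intro j hj
    have hj' : ρ j = w := hj
    have h1 := rest j (fun h => hDn j h hj') (Set.notMem_empty _)
    rw [hj'] at h1
    exact congrArg Sum.inl h1
  · -- rest
    intro j hj1 hj2
    exact congrArg Sum.inl (rest j hj1 (Set.notMem_empty _))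
  · -- dmem
    intro j hj
    exact hmem _ (dmem j hj)
  · -- δmem
    rintro ⟨(_ | d), (_ | _)⟩
    · exact hmem _ List.mem_cons_self
    · exact hhead
    · exact hmem _ (δmem _)
    · exact hmem _ (δmem _)
  · -- θinj
    intro j hj j' hj' h
    exact θinj hj hj' (Sum.inl_injective h)
  · -- δinj
    have hs : ∀ x, δ x ≠ s := hfree.2
    have htt : ∀ x, δ x ≠ ν w := fun x h => ht (h ▸ δmem x)
    rintro ⟨(_ | d), b⟩ ⟨(_ | d'), b'⟩ h
    · rcases b <;> rcases b'
      · rfl
      · exact absurd (Sum.inl_injective h) hst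
      · exact absurd (Sum.inl_injective h).symm hst
      · rfl
    · rcases b
      · exact absurd (Sum.inl_injective h).symm (hs _)
      · exact absurd (Sum.inl_injective h).symm (htt _)
    · rcases b'
      · exact absurd (Sum.inl_injective h) (hs _)
      · exact absurd (Sum.inl_injective h) (htt _)
    · have h1 := δinj (Sum.inl_injective h)
      have h2 := congrArg Prod.fst h1
      have h3 := congrArg Prod.snd h1
      simp only at h2 h3
      rw [h2, h3]
  · -- sep
    intro j hj x h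
    have htt : θ j ≠ ν w := fun h => ht (h ▸ dmem j hj)
    obtain ⟨x1, b⟩ := x
    rcases x1 with _ | d
    · rcases b
      · exact hfree.1 j hj (Sum.inl_injective h)
      · exact htt (Sum.inl_injective h)
    · exact sep j hj _ (Sum.inl_injective h)

theorem Cfg.cast_free {Dn Dn' Pd Pd' : Set J} {V V' : Set W} (h1 : Dn = Dn') (h2 : Pd = Pd')
    (h3 : V = V') (h : ∃ C : Cfg c B ρ Dn Pd V, C.Free) : ∃ C : Cfg c B ρ Dn' Pd' V', C.Free := by
  subst h1 h2 h3
  exact h

/-- all pending elements -/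
theorem inner {V : Set W} (Pd : Finset J) : ∀ (Dn : Set J), Disjoint Dn (Pd : Set J) →
    (∃ C : Cfg c B ρ Dn (Pd : Set J) V, C.Free) →
    ∃ C : Cfg c B ρ (Dn ∪ (Pd : Set J)) ∅ V, C.Free := by
  classical
  induction Pd using Finset.induction_on with
  | empty =>
    intro Dn _ h
    refine Cfg.cast_free ?_ ?_ rfl h
    · rw [Finset.coe_empty, Set.union_empty]
    · exact Finset.coe_empty
  | insert j Pd hj ih =>
    rintro Dn hdisj ⟨C, hC⟩
    have hjm : j ∈ ((insert j Pd : Finset J) : Set J) := Finset.mem_coe.2 (Finset.mem_insert_self _ _)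
    have h1 := eqStep C {j} (Set.singleton_subset_iff.2 hjm) Set.subsingleton_singleton
      (Or.inr hC) hdisj
    have h2 : ((insert j Pd : Finset J) : Set J) \ {j} = (Pd : Set J) := by
      rw [Finset.coe_insert]
      ext x
      simp only [Set.mem_sdiff, Set.mem_insert_iff, Finset.mem_coe, Set.mem_singleton_iff]
      constructor
      · rintro ⟨h | h, h'⟩
        · exact absurd h h'
        · exact h
      · intro h
        exact ⟨Or.inr h, fun h' => hj (h' ▸ h)⟩
    have h3 := ih (Dn ∪ {j}) (by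
      rw [Set.disjoint_left]
      rintro x (hx | hx) hx'
      · refine Set.disjoint_left.1 hdisj hx ?_
        rw [Finset.coe_insert]
        exact Set.mem_insert_of_mem _ hx'
      · rw [Set.mem_singleton_iff] at hx
        rw [hx] at hx'
        exact hj hx') (Cfg.cast_free rfl h2 rfl h1)
    refine Cfg.cast_free ?_ rfl rfl h3
    rw [Finset.coe_insert, Set.union_assoc]
    rfl

/-- all vertices -/
theorem outer [Finite J] (V : Finset W) : ∀ (Dn : Set J), (∀ j, j ∈ Dn ↔ ρ j ∉ V) →
    (∃ C : Cfg c B ρ Dn ∅ (V : Set W), C.Free) →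
    ∃ C : Cfg c B ρ Set.univ ∅ ∅, C.Free := by
  classical
  have := Fintype.ofFinite J
  induction V using Finset.induction_on with
  | empty =>
    intro Dn hDn h
    refine Cfg.cast_free ?_ rfl Finset.coe_empty h
    ext j
    simp [hDn]
  | insert w V hw ih =>
    rintro Dn hDn ⟨C, hC⟩
    have hD1 : ∀ j ∈ Dn, ρ j ≠ w := fun j hj h =>
      (hDn j).1 hj (h ▸ Finset.mem_insert_self _ _)
    have hcast : ((insert w V : Finset W) : Set W) = insert w (V : Set W) := Finset.coe_insert _ _
    obtain ⟨C0, hC0⟩ := Cfg.cast_free rfl rfl hcast ⟨C, hC⟩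
    obtain ⟨C1⟩ := cutStep C0 (by exact_mod_cast hw) hC0 hD1
    have hdisj : Disjoint Dn {j | ρ j = w} := by
      rw [Set.disjoint_left]
      intro j hj hj'
      exact hD1 j hj hj'
    have h2 := eqStep C1 ∅ (Set.empty_subset _) Set.subsingleton_empty (Or.inl rfl) hdisj
    set Pd : Finset J := Finset.univ.filter fun j => ρ j = w with hPd
    have hPd' : (Pd : Set J) = {j | ρ j = w} := by
      ext j
      simp [hPd]
    have h3 := inner (V := (V : Set W)) Pd Dn (by rw [hPd']; exact hdisj)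
      (Cfg.cast_free (Set.union_empty _) (by rw [Set.sdiff_empty, hPd']) rfl h2)
    refine ih (Dn ∪ (Pd : Set J)) (fun j => ?_) h3
    rw [hPd', Set.mem_union, hDn, Set.mem_setOf_eq, Finset.mem_insert]
    constructor
    · rintro (h | h)
      · exact fun h' => h (Or.inr h')
      · rw [h]
        exact hw
    · intro h
      by_cases h' : ρ j = w
      · exact Or.inr h'
      · left
        rintro (h'' | h'')
        · exact h' h''
        · exact h h''

/-- the beginning -/
theorem init {k : ℕ} (hk : 2 ≤ k) (h : Rep c (rename ρ B) k) :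
    ∃ C : Cfg c B ρ ∅ ∅ Set.univ, C.Free := by
  refine ⟨⟨W ⊕ (Fin 1 ⊕ Fin 1), Sum.inr (Sum.inr 0), [Sum.inr (Sum.inl 0)], Sum.inl ∘ ρ, Sum.inl,
    Empty, inferInstance, fun x => x.1.elim, k + 1, ?_, by omega, ?_, ?_, ?_, ?_, ?_, ?_, ?_, ?_, ?_,
    ?_, ?_⟩, ?_⟩
  · have h1 := h.plane (Fin 1)
    rw [Fintype.card_fin] at h1
    have h2 : quad (rename ρ B) (Fin 1) = rename (Sum.inl ∘ ρ) B +
        pairSum (fun x : Empty × Bool => x.1.elim) +
        pathSum [Sum.inr (Sum.inr 0), Sum.inr (Sum.inl 0)] := by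
      unfold quad pairSum
      rw [Fin.sum_univ_one, rename_rename, pathSum_cons, Finset.univ_eq_empty,
        Finset.sum_empty, add_zero]
      change _ = _ + (_ + 0)
      rw [add_zero, mul_comm]
    rw [h2] at h1
    exact h1
  · simp
  · intro w _
    simp
  · exact Set.injOn_of_injective Sum.inl_injective
  · rintro (w | i | i)
    · exact Or.inr ⟨w, Set.mem_univ _, rfl⟩
    · left
      fin_cases i
      simp
    · left
      fin_cases i
      simp
  · intro j hj
    exact absurd hj (Set.notMem_empty _)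
  · intro j _ _
    rfl
  · intro j hj
    exact absurd hj (Set.notMem_empty _)
  · intro x
    exact x.1.elim
  · exact Set.injOn_empty _
  · intro x
    exact x.1.elim
  · intro j hj
    exact absurd hj (Set.notMem_empty _)
  · exact ⟨fun j hj => absurd hj (Set.notMem_empty _), fun x => x.1.elim⟩

/-- the product of consecutive elements, by indices -/
theorem pathSum_eq {α : Type} : ∀ (l : List α) (n : ℕ) (hn : l.length = n + 1),
    pathSum l = ∑ i : Fin n, X (l.get (Fin.cast hn.symm i.castSucc)) *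
      X (l.get (Fin.cast hn.symm i.succ))
  | [], n, hn => absurd hn (by simp)
  | [a], n, hn => by
    have h : n = 0 := by simpa using hn.symm
    subst h
    simp [pathSum]
  | a :: b :: l, n, hn => by
    obtain ⟨m, rfl⟩ : ∃ m, n = m + 1 := ⟨l.length, by simpa using hn.symm⟩
    have ih := pathSum_eq (b :: l) m (by simpa using hn)
    rw [pathSum_cons, ih, Fin.sum_univ_succ]
    rfl

/-- **The path with disjoint blocks.** -/
theorem exists_path [Finite J] [Finite W] {k : ℕ} (hk : 2 ≤ k) (h : Rep c (rename ρ B) k) :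
    ∃ (n : ℕ) (θ : J → Fin (n + 1)) (D : Type) (_ : Fintype D) (δ : D × Bool → Fin (n + 1))
      (k' : ℕ), 2 ≤ k' ∧ Function.Injective (Sum.elim θ δ) ∧
      Rep c (∑ i : Fin n, X i.castSucc * X i.succ + (rename θ B + pairSum δ)) k' := by
  classical
  have := Fintype.ofFinite W
  obtain ⟨C0, hC0⟩ := init hk h
  obtain ⟨C, hC⟩ := outer (c := c) (B := B) (ρ := ρ) (Finset.univ : Finset W) ∅
    (fun j => by simp) (Cfg.cast_free rfl rfl Finset.coe_univ.symm ⟨C0, hC0⟩)
  obtain ⟨α, s, l, θ, ν, D, fD, δ, k', rep, two, nodup, ν_not, ν_inj, cover, pend, rest, dmem,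
    δmem, θinj, δinj, sep⟩ := C
  have hall : ∀ a, a ∈ s :: l := by
    intro a
    rcases cover a with h1 | ⟨w, hw, -⟩
    · exact h1
    · exact absurd hw (Set.notMem_empty _)
  have hlen : (s :: l).length = l.length + 1 := rfl
  set eq := nodup.getEquivOfForallMemList (s :: l) hall with heq
  set g : α ≃ Fin (l.length + 1) := eq.symm.trans (finCongr hlen) with hg
  refine ⟨l.length, g ∘ θ, D, fD, g ∘ δ, k', two, ?_, ?_⟩
  · rintro (j | x) (j' | x') hx
    · exact congrArg Sum.inl (θinj (Set.mem_univ _) (Set.mem_univ _) (g.injective hx))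
    · exact absurd (g.injective hx) (sep j (Set.mem_univ _) x')
    · exact absurd (g.injective hx).symm (sep j' (Set.mem_univ _) x)
    · exact congrArg Sum.inr (δinj (g.injective hx))
  · have h1 := rep.rn g
    have h2 : rename g (pathSum (s :: l)) = ∑ i : Fin l.length, X i.castSucc * X i.succ := by
      rw [pathSum_eq (s :: l) l.length hlen, map_sum]
      refine Finset.sum_congr rfl fun i _ => ?_
      have h3 : ∀ i : Fin (l.length + 1), g ((s :: l).get (Fin.cast hlen.symm i)) = i := by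
        intro i
        have h4 : eq (Fin.cast hlen.symm i) = (s :: l).get (Fin.cast hlen.symm i) := rfl
        rw [← h4, hg, Equiv.trans_apply, Equiv.symm_apply_apply]
        rfl
      rw [map_mul, rename_X, rename_X, h3, h3]
    rw [map_add, map_add, rename_rename, ← pairSum_map, h2] at h1
    have h4 : rename (g ∘ θ) B + pairSum (g ∘ δ) + ∑ i : Fin l.length, X i.castSucc * X i.succ =
        ∑ i : Fin l.length, X i.castSucc * X i.succ +
          (rename (g ∘ θ) B + pairSum (g ∘ δ)) := add_comm _ _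
    rw [h4] at h1
    exact h1

end Pool.Agent.K6.H7.UN
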