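import Pool.Agent.K6.H7.UN.TrZ

set_option autoImplicit false
set_option linter.unusedSectionVars false

/-! # The normal form is not constant; rational coefficients -/

namespace Pool.Agent.K6.H7.UN

open MvPolynomial Pool.Agent.N165.CU

theorem nf_ne {n : ℕ} (hn : 1 ≤ n) (M : Finset (Finset (Fin (n + 1))))
    (hM : ∀ e ∈ M, 1 ≤ e.card) (c : ℤ) : path n + hyp M ≠ C c := by
  intro h
  have h0 := congrArg (eval fun _ => (0 : ℤ)) h
  have h1 := congrArg (eval fun _ => (1 : ℤ)) h
  have e0 : eval (fun _ => (0 : ℤ)) (path n + hyp M) = 0 := by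
    unfold path hyp
    rw [map_add, map_sum, map_sum]
    rw [Finset.sum_eq_zero fun i _ => by simp, zero_add]
    refine Finset.sum_eq_zero fun e he => ?_
    rw [map_prod]
    simp only [eval_X, Finset.prod_const]
    exact zero_pow (by have := hM e he; omega)
  have e1 : eval (fun _ => (1 : ℤ)) (path n + hyp M) = n + M.card := by
    unfold path hyp
    rw [map_add, map_sum, map_sum]
    simp [map_prod]
  rw [e0, eval_C] at h0
  rw [e1, eval_C] at h1
  rw [← h0] at h1
  omega

/-- The polynomial `x_0 x_1 + x_1 x_2 + ⋯ + x_{n - 1} x_n` over the rational numbers. -/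
noncomputable def pathQ (n : ℕ) : MvPolynomial (Fin (n + 1)) ℚ :=
  ∑ i : Fin n, X i.castSucc * X i.succ

theorem map_nf (n : ℕ) (M : Finset (Finset (Fin (n + 1)))) :
    map (Int.castRingHom ℚ) (path n + hyp M) = pathQ n + hypergraphPoly M := by
  rw [map_add, map_hyp]
  congr 1
  unfold path pathQ
  rw [map_sum]
  refine Finset.sum_congr rfl fun i _ => ?_
  rw [map_mul, map_X, map_X]

end Pool.Agent.K6.H7.UN
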