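import Pool.Agent.K6.H7.UN.Cfg
import Pool.Agent.N165.CU.StmH

set_option autoImplicit false
set_option linter.unusedSectionVars false

/-! # The normal form: a path plus disjoint blocks -/

namespace Pool.Agent.K6.H7.UN

open MvPolynomial Pool.Agent.N165.CU Pool.Agent.K6.H7.SC

/-- disjoint blocks as a set of sets -/
theorem blocks {α Λ : Type} [Fintype Λ] (S : Λ → Type) [∀ x, Fintype (S x)]
    (τ : (Σ x, S x) → α) (hτ : Function.Injective τ)
    (hS : ∀ x, 1 ≤ Fintype.card (S x) ∧ Fintype.card (S x) ≤ 3) :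
    ∃ M : Finset (Finset α), (∀ e ∈ M, 1 ≤ e.card ∧ e.card ≤ 3) ∧
      (M : Set (Finset α)).PairwiseDisjoint id ∧ hyp M = ∑ x, ∏ y : S x, X (τ ⟨x, y⟩) := by
  classical
  set b : Λ → Finset α := fun x => Finset.univ.image fun y : S x => τ ⟨x, y⟩ with hb
  have hinj : ∀ x, Function.Injective fun y : S x => τ ⟨x, y⟩ := by
    intro x y y' h
    have h1 := hτ h
    simpa using h1
  have hcard : ∀ x, (b x).card = Fintype.card (S x) := by
    intro x
    rw [hb]
    beta_reduce
    rw [Finset.card_image_of_injective _ (hinj x), Finset.card_univ]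
  have hdis : ∀ x x', x ≠ x' → Disjoint (b x) (b x') := by
    intro x x' hx
    rw [Finset.disjoint_left]
    intro a ha ha'
    obtain ⟨y, -, rfl⟩ := Finset.mem_image.1 ha
    obtain ⟨y', -, h⟩ := Finset.mem_image.1 ha'
    have h1 := congrArg Sigma.fst (hτ h)
    exact hx h1.symm
  have hbinj : Function.Injective b := by
    intro x x' h
    by_contra hne
    have h1 := hdis x x' hne
    rw [← h, Finset.disjoint_self_iff_empty] at h1
    have h2 := hcard x
    rw [h1, Finset.card_empty] at h2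
    have h3 := (hS x).1
    omega
  refine ⟨Finset.univ.image b, ?_, ?_, ?_⟩
  · intro e he
    obtain ⟨x, -, rfl⟩ := Finset.mem_image.1 he
    rw [hcard]
    exact hS x
  · intro e he e' he' hne
    obtain ⟨x, -, rfl⟩ := Finset.mem_image.1 (Finset.mem_coe.1 he)
    obtain ⟨x', -, rfl⟩ := Finset.mem_image.1 (Finset.mem_coe.1 he')
    exact hdis x x' fun h => hne (h ▸ rfl)
  · unfold hyp
    rw [Finset.sum_image fun x _ x' _ h => hbinj h]
    refine Finset.sum_congr rfl fun x _ => ?_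
    rw [hb]
    beta_reduce
    rw [Finset.prod_image fun y _ y' _ h => hinj x h]

/-- The polynomial `x_0 x_1 + x_1 x_2 + ⋯ + x_{n - 1} x_n`. -/
noncomputable def path (n : ℕ) : MvPolynomial (Fin (n + 1)) ℤ :=
  ∑ i : Fin n, X i.castSucc * X i.succ

variable {W β : Type} {c : MvPolynomial β ℤ}

/-- **The path with disjoint blocks.** -/
theorem exists_nf [Finite W] (E : Finset (Finset W)) (hE : ∀ e ∈ E, 1 ≤ e.card ∧ e.card ≤ 3)
    {k : ℕ} (hk : 2 ≤ k) (h : Rep c (hyp E) k) :
    ∃ (n : ℕ) (M : Finset (Finset (Fin (n + 1)))) (k' : ℕ), 2 ≤ k' ∧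
      (∀ e ∈ M, 1 ≤ e.card ∧ e.card ≤ 3) ∧ (M : Set (Finset (Fin (n + 1)))).PairwiseDisjoint id ∧
      Rep c (path n + hyp M) k' := by
  classical
  set J : Type := Σ e : E, {w // w ∈ e.1} with hJ
  set ρ : J → W := fun j => j.2.1 with hρ
  set B : MvPolynomial J ℤ := ∑ e : E, ∏ w : {w // w ∈ e.1}, X ⟨e, w⟩ with hB
  have h1 : rename ρ B = hyp E := by
    rw [hB, map_sum]
    unfold hyp
    rw [← Finset.sum_coe_sort E fun e => ∏ i ∈ e, (X i : MvPolynomial W ℤ)]
    refine Finset.sum_congr rfl fun e _ => ?_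
    rw [map_prod, ← Finset.prod_coe_sort e.1 fun i => (X i : MvPolynomial W ℤ)]
    refine Finset.prod_congr rfl fun w _ => ?_
    rw [rename_X]
  rw [← h1] at h
  obtain ⟨n, θ, D, _, δ, k', hk', hinj, hrep⟩ := exists_path hk h
  set S : E ⊕ D → Type := fun x => Sum.elim (fun e => {w // w ∈ (e : E).1}) (fun _ => Bool) x
    with hS
  have hfin : ∀ x, Nonempty (Fintype (S x)) := by
    rintro (e | d)
    · exact ⟨(inferInstance : Fintype {w // w ∈ (e : E).1})⟩
    · exact ⟨(inferInstance : Fintype Bool)⟩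
  let inst : ∀ x, Fintype (S x) := fun x => match x with
    | Sum.inl e => (inferInstance : Fintype {w // w ∈ (e : E).1})
    | Sum.inr _ => (inferInstance : Fintype Bool)
  set τ : (Σ x, S x) → Fin (n + 1) := fun x => match x with
    | ⟨Sum.inl e, w⟩ => θ ⟨e, w⟩
    | ⟨Sum.inr d, b⟩ => δ (d, b) with hτ
  have hτinj : Function.Injective τ := by
    rintro ⟨(e | d), y⟩ ⟨(e' | d'), y'⟩ hx
    · have h2 := Sum.inl_injective (hinj (a₁ := Sum.inl ⟨e, y⟩) (a₂ := Sum.inl ⟨e', y'⟩) hx)
      obtain ⟨rfl, h3⟩ := Sigma.mk.inj_iff.1 h2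
      rw [eq_of_heq h3]
    · exact absurd (hinj (a₁ := Sum.inl ⟨e, y⟩) (a₂ := Sum.inr (d', y')) hx) (by simp)
    · exact absurd (hinj (a₁ := Sum.inr (d, y)) (a₂ := Sum.inl ⟨e', y'⟩) hx) (by simp)
    · have h2 := Sum.inr_injective (hinj (a₁ := Sum.inr (d, y)) (a₂ := Sum.inr (d', y')) hx)
      have h3 := congrArg Prod.fst h2
      have h4 := congrArg Prod.snd h2
      simp only at h3 h4
      subst h3 h4
      rfl
  obtain ⟨M, hM1, hM2, hM3⟩ := @blocks (Fin (n + 1)) (E ⊕ D) _ S inst τ hτinj (by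
    rintro (e | d)
    · have h2 : Fintype.card {w // w ∈ e.1} = e.1.card := Fintype.card_coe e.1
      have h3 := hE e.1 e.2
      rw [← h2] at h3
      exact h3
    · have h2 : Fintype.card Bool = 2 := Fintype.card_bool
      change 1 ≤ Fintype.card Bool ∧ Fintype.card Bool ≤ 3
      rw [h2]
      exact ⟨by norm_num, by norm_num⟩)
  refine ⟨n, M, k', hk', hM1, hM2, ?_⟩
  have h5 : hyp M = rename θ B + pairSum δ := by
    rw [hM3, Fintype.sum_sum_type, hB, map_sum]
    congr 1
    · refine Finset.sum_congr rfl fun e _ => ?_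
      rw [map_prod]
      refine Finset.prod_congr rfl fun w _ => ?_
      rw [rename_X]
    · unfold pairSum
      refine Finset.sum_congr rfl fun d _ => ?_
      change ∏ b : Bool, X (δ (d, b)) = _
      rw [Fintype.prod_bool, mul_comm]
  rw [h5]
  exact hrep

end Pool.Agent.K6.H7.UN
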