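import Pool.Agent.K6.H7.UN.Nf
import Pool.Agent.K6.H7.SC.Rat
import Pool.Agent.N165.CU.Main

set_option autoImplicit false
set_option linter.unusedSectionVars false

/-! # Transfer of the conjectures along stable equivalence -/

namespace Pool.Agent.K6.H7.UN

open MvPolynomial Pool.Agent.W427.SMC Pool.Agent.H628R4.TP Pool.Agent.N165.CU Pool.Agent.K6.H7.SC

/-- **The normal form.** -/
theorem exists_start {V : Type} [Fintype V] (g : MvPolynomial V ℤ) :
    ∃ (n : ℕ) (M : Finset (Finset (Fin (n + 1)))) (k : ℕ), 2 ≤ k ∧ n = Fintype.card V + 2 * k ∧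
      (∀ e ∈ M, 1 ≤ e.card ∧ e.card ≤ 3) ∧ (M : Set (Finset (Fin (n + 1)))).PairwiseDisjoint id ∧
      Rep (cone g) (path n + hyp M) k := by
  obtain ⟨κ, hκ, Φ, H, hκ2, hH, hΦ⟩ := parts.hyp (Option V) (cone g)
  have h1 : Rep (cone g) (hyp H) (Fintype.card κ) :=
    ⟨κ, hκ, Equiv.refl _, Φ, rfl, by rw [hΦ, Equiv.coe_refl, rename_id_apply]⟩
  obtain ⟨n, M, k, hk, h2, h3, h4⟩ := exists_nf H hH hκ2 h1
  refine ⟨n, M, k, hk, ?_, h2, h3, h4⟩
  obtain ⟨κ', hκ', e, -, h5, -⟩ := h4
  have h6 := Fintype.card_congr e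
  rw [Fintype.card_fin, Fintype.card_sum, Fintype.card_sum, Fintype.card_option, h5] at h6
  omega

section tr

variable {V W : Type} [Fintype V] [Fintype W] {F : MvPolynomial W ℤ} {k : ℕ}

/-- the Poincare series -/
theorem Rep.poin {f : MvPolynomial V ℤ} (h : Rep (cone f) F k) (p : ℕ) [Fact p.Prime] :
    (PowerSeries.C (p : ℂ) - PowerSeries.X) * poincare p F =
      1 + PowerSeries.C ((p : ℂ) - 1) *
        PowerSeries.rescale (((p : ℂ) ^ k)⁻¹) (poincare p f) := by
  obtain ⟨κ, _, e, Φ, h1, h2⟩ := h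
  rw [← poincare_rename p e F, ← h2, poincare_auto, ← h1]
  exact poincare_rel p (κ := κ) parts.c2 f

/-- the functional equation -/
theorem Rep.bf {f : MvPolynomial V ℤ} (h : Rep (cone f) F k) (b : Polynomial ℂ)
    (hb : IsBFunction (map (Int.castRingHom ℂ) f) b) :
    IsBFunction (map (Int.castRingHom ℂ) F)
      ((Polynomial.X + 1) * b.comp (Polynomial.X + Polynomial.C (k : ℂ))) := by
  obtain ⟨κ, _, e, Φ, h1, h2⟩ := h
  have h4 := parts.b2 V κ (map (Int.castRingHom ℂ) f) b hb
  rw [← map_cone, ← map_quad] at h4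
  have h5 := parts.b1 _ (bcE Φ) _ _ h4
  rw [bcE_map, h2, map_rename] at h5
  have h6 := bfun_rename e.symm _ _ h5
  rw [rename_rename, Equiv.symm_comp_self, rename_id_apply, h1] at h6
  exact h6

end tr

/-- **The transfer for the Poincare series.** -/
theorem poin_transfer {V W : Type} [Fintype V] [Fintype W] (f : MvPolynomial V ℤ)
    (F : MvPolynomial W ℤ) (m : ℕ) (hκ2 : 2 ≤ m) (p : ℕ) [Fact p.Prime]
    (hb : ∀ b : Polynomial ℂ, IsBFunction (map (Int.castRingHom ℂ) f) b →
      IsBFunction (map (Int.castRingHom ℂ) F)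
        ((Polynomial.X + 1) * b.comp (Polynomial.X + Polynomial.C (m : ℂ))))
    (hrel : (PowerSeries.C (p : ℂ) - PowerSeries.X) * poincare p F =
      1 + PowerSeries.C ((p : ℂ) - 1) *
        PowerSeries.rescale (((p : ℂ) ^ m)⁻¹) (poincare p f)) :
    (PoincareMonodromy p F → PoincareMonodromy p f) ∧
      (PoincareMonodromyOrders p F → PoincareMonodromyOrders p f) := by
  classical
  have hp1 : (1 : ℝ) < (p : ℝ) := by exact_mod_cast (Fact.out : p.Prime).one_lt
  have hp0 : (p : ℂ) ≠ 0 := by exact_mod_cast (Fact.out : p.Prime).ne_zero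
  have hlog : 0 < Real.log p := Real.log_pos hp1
  have key : ∀ N D : Polynomial ℂ, IsCoprime N D →
      (D : PowerSeries ℂ) * poincare p f = (N : PowerSeries ℂ) → ∀ T₀ : ℂ, D.eval T₀ = 0 →
      ∃ N' D' : Polynomial ℂ, IsCoprime N' D' ∧
        (D' : PowerSeries ℂ) * poincare p F = (N' : PowerSeries ℂ) ∧
        D'.eval ((p : ℂ) ^ m * T₀) = 0 ∧
        D'.rootMultiplicity ((p : ℂ) ^ m * T₀) = D.rootMultiplicity T₀ := by
    intro N D hc hD T₀ h0
    have hT := one_le_norm p f N D hc hD T₀ h0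
    set q : ℂ := ((p : ℂ) ^ m)⁻¹ with hq
    have hq0 : q ≠ 0 := inv_ne_zero (pow_ne_zero _ hp0)
    set T₁ : ℂ := (p : ℂ) ^ m * T₀ with hT₁
    have hqT : q * T₁ = T₀ := by
      rw [hq, hT₁, inv_mul_cancel_left₀ (pow_ne_zero _ hp0)]
    have hN0 : N.eval T₀ ≠ 0 := by
      intro h3
      obtain ⟨a, b, hab⟩ := hc
      have h4 := congrArg (Polynomial.eval T₀) hab
      rw [Polynomial.eval_add, Polynomial.eval_mul, Polynomial.eval_mul, h3, h0,
        Polynomial.eval_one] at h4
      simp at h4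
    have hDne : D ≠ 0 := by
      rintro rfl
      rw [Polynomial.coe_zero, zero_mul] at hD
      have : N = 0 := by
        rw [← Polynomial.coe_eq_zero_iff]
        exact hD.symm
      rw [this, Polynomial.eval_zero] at hN0
      exact hN0 rfl
    set Dq : Polynomial ℂ := D.comp (Polynomial.C q * Polynomial.X) with hDq
    set Nq : Polynomial ℂ := N.comp (Polynomial.C q * Polynomial.X) with hNq
    have hDqe : ∀ T, Dq.eval T = D.eval (q * T) := fun T => by
      rw [hDq, Polynomial.eval_comp, Polynomial.eval_mul, Polynomial.eval_C, Polynomial.eval_X]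
    have hNqe : ∀ T, Nq.eval T = N.eval (q * T) := fun T => by
      rw [hNq, Polynomial.eval_comp, Polynomial.eval_mul, Polynomial.eval_C, Polynomial.eval_X]
    have h1 : (Dq : PowerSeries ℂ) * PowerSeries.rescale q (poincare p f) = (Nq : PowerSeries ℂ) := by
      rw [hDq, hNq, ← rescale_poly, ← rescale_poly, ← map_mul, hD]
    have h2 := hrel
    set D2 : Polynomial ℂ := (Polynomial.C (p : ℂ) - Polynomial.X) * Dq with hD2
    set N2 : Polynomial ℂ := Dq + Polynomial.C ((p : ℂ) - 1) * Nq with hN2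
    have h3 : (D2 : PowerSeries ℂ) * poincare p F = (N2 : PowerSeries ℂ) := by
      rw [hD2, hN2, Polynomial.coe_mul, Polynomial.coe_sub, Polynomial.coe_add, Polynomial.coe_mul,
        Polynomial.coe_C, Polynomial.coe_X, Polynomial.coe_C, ← h1]
      linear_combination (Dq : PowerSeries ℂ) * h2
    have hp1' : (p : ℂ) - 1 ≠ 0 := by
      intro h
      have h4 : (p : ℂ) = 1 := sub_eq_zero.1 h
      have h5 : (p : ℝ) = 1 := by exact_mod_cast h4
      linarith
    have hN2e : N2.eval T₁ ≠ 0 := by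
      rw [hN2, Polynomial.eval_add, Polynomial.eval_mul, Polynomial.eval_C, hDqe, hNqe, hqT, h0,
        zero_add]
      exact mul_ne_zero hp1' hN0
    have hnorm : ‖T₁‖ = (p : ℝ) ^ m * ‖T₀‖ := by
      rw [hT₁, norm_mul, norm_pow, Complex.norm_natCast]
    have hpT : (p : ℂ) - T₁ ≠ 0 := by
      intro h
      have h4 : T₁ = (p : ℂ) := (sub_eq_zero.1 h).symm
      have h5 : ‖T₁‖ = (p : ℝ) := by rw [h4, Complex.norm_natCast]
      have h6 : (p : ℝ) < (p : ℝ) ^ m := by
        calc (p : ℝ) = (p : ℝ) ^ 1 := (pow_one _).symm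
          _ < (p : ℝ) ^ m := pow_lt_pow_right₀ hp1 hκ2
      have h7 : (p : ℝ) ^ m ≤ (p : ℝ) ^ m * ‖T₀‖ :=
        le_mul_of_one_le_right (pow_nonneg (by linarith) _) hT
      linarith
    have hD2e : D2.eval T₁ = 0 := by
      rw [hD2, Polynomial.eval_mul, hDqe, hqT, h0, mul_zero]
    have hDqne : Dq ≠ 0 := by
      intro h
      apply hDne
      have h4 := congrArg (fun r : Polynomial ℂ =>
        r.comp (Polynomial.C q⁻¹ * Polynomial.X)) h
      simp only [hDq, Polynomial.comp_assoc, Polynomial.mul_comp, Polynomial.C_comp,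
        Polynomial.X_comp, Polynomial.zero_comp] at h4
      rw [← mul_assoc, ← Polynomial.C_mul, mul_inv_cancel₀ hq0, Polynomial.C_1, one_mul,
        Polynomial.comp_X] at h4
      exact h4
    have hlin : (Polynomial.C (p : ℂ) - Polynomial.X : Polynomial ℂ) ≠ 0 := by
      intro h
      have h4 := congrArg (Polynomial.eval T₁) h
      rw [Polynomial.eval_sub, Polynomial.eval_C, Polynomial.eval_X, Polynomial.eval_zero] at h4
      exact hpT h4
    have hD2ne : D2 ≠ 0 := mul_ne_zero hlin hDqne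
    -- common divisors
    obtain ⟨g, N', D', hg0, hcop, hN', hD'⟩ : ∃ g N' D' : Polynomial ℂ, g ≠ 0 ∧ IsCoprime N' D' ∧
        N2 = g * N' ∧ D2 = g * D' := by
      have hg0 : EuclideanDomain.gcd N2 D2 ≠ 0 := fun h =>
        hD2ne (EuclideanDomain.gcd_eq_zero_iff.1 h).2
      obtain ⟨N', hN'⟩ := EuclideanDomain.gcd_dvd_left N2 D2
      obtain ⟨D', hD'⟩ := EuclideanDomain.gcd_dvd_right N2 D2
      refine ⟨_, N', D', hg0, ?_, hN', hD'⟩
      have h4 := EuclideanDomain.gcd_eq_gcd_ab N2 D2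
      refine ⟨EuclideanDomain.gcdA N2 D2, EuclideanDomain.gcdB N2 D2, ?_⟩
      apply mul_left_cancel₀ hg0
      rw [mul_one]
      calc EuclideanDomain.gcd N2 D2 * (EuclideanDomain.gcdA N2 D2 * N' +
            EuclideanDomain.gcdB N2 D2 * D') =
          (EuclideanDomain.gcd N2 D2 * N') * EuclideanDomain.gcdA N2 D2 +
            (EuclideanDomain.gcd N2 D2 * D') * EuclideanDomain.gcdB N2 D2 := by ring
        _ = N2 * EuclideanDomain.gcdA N2 D2 + D2 * EuclideanDomain.gcdB N2 D2 := by
            rw [← hN', ← hD']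
        _ = EuclideanDomain.gcd N2 D2 := h4.symm
    have hgc : (g : PowerSeries ℂ) ≠ 0 := by
      rw [Ne, Polynomial.coe_eq_zero_iff]
      exact hg0
    have hge : g.eval T₁ ≠ 0 := by
      intro h
      apply hN2e
      rw [hN', Polynomial.eval_mul, h, zero_mul]
    refine ⟨N', D', hcop, ?_, ?_, ?_⟩
    · apply mul_left_cancel₀ hgc
      rw [← mul_assoc, ← Polynomial.coe_mul, ← hD', h3, hN', Polynomial.coe_mul]
    · have h4 := hD2e
      rw [hD', Polynomial.eval_mul] at h4
      exact (mul_eq_zero.1 h4).resolve_left hge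
    · have h4 : D2.rootMultiplicity T₁ = D'.rootMultiplicity T₁ := by
        have h5 : g * D' ≠ 0 := by rw [← hD']; exact hD2ne
        rw [hD', Polynomial.rootMultiplicity_mul h5, Polynomial.rootMultiplicity_eq_zero hge,
          zero_add]
      have h5 : D2.rootMultiplicity T₁ = Dq.rootMultiplicity T₁ := by
        rw [hD2, Polynomial.rootMultiplicity_mul hD2ne, Polynomial.rootMultiplicity_eq_zero (by
          rw [Polynomial.IsRoot.def, Polynomial.eval_sub, Polynomial.eval_C, Polynomial.eval_X]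
          exact hpT), zero_add]
      rw [← h4, h5]
      -- scaling
      have h6 : (Polynomial.X - Polynomial.C T₀).comp (Polynomial.C q * Polynomial.X) =
          Polynomial.C q * (Polynomial.X - Polynomial.C T₁) := by
        rw [Polynomial.sub_comp, Polynomial.X_comp, Polynomial.C_comp, mul_sub, ← Polynomial.C_mul,
          hqT]
      obtain ⟨R, hR, hnd⟩ := Polynomial.exists_eq_pow_rootMultiplicity_mul_and_not_dvd D hDne T₀
      have h7 : Dq = (Polynomial.X - Polynomial.C T₁) ^ D.rootMultiplicity T₀ *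
          (Polynomial.C (q ^ D.rootMultiplicity T₀) * R.comp (Polynomial.C q * Polynomial.X)) := by
        rw [hDq]
        conv_lhs => rw [hR]
        rw [Polynomial.mul_comp, Polynomial.pow_comp, h6, mul_pow, ← Polynomial.C_pow]
        ring
      have h8 : ¬ (Polynomial.C (q ^ D.rootMultiplicity T₀) *
          R.comp (Polynomial.C q * Polynomial.X)).IsRoot T₁ := by
        rw [Polynomial.IsRoot.def, Polynomial.eval_mul, Polynomial.eval_C, Polynomial.eval_comp,
          Polynomial.eval_mul, Polynomial.eval_C, Polynomial.eval_X, hqT]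
        refine mul_ne_zero (pow_ne_zero _ hq0) fun h => hnd (Polynomial.dvd_iff_isRoot.2 h)
      have h9 : (Polynomial.X - Polynomial.C T₁) ^ D.rootMultiplicity T₀ *
          (Polynomial.C (q ^ D.rootMultiplicity T₀) * R.comp (Polynomial.C q * Polynomial.X)) ≠ 0 := by
        rw [← h7]
        exact hDqne
      rw [h7, Polynomial.rootMultiplicity_mul h9, Polynomial.rootMultiplicity_X_sub_C_pow,
        Polynomial.rootMultiplicity_eq_zero h8, add_zero]
  have hlogT : ∀ T₀ : ℂ, 1 ≤ ‖T₀‖ →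
      (((-Real.log ‖(p : ℂ) ^ m * T₀‖ / Real.log p : ℝ)) : ℂ) =
        ((-Real.log ‖T₀‖ / Real.log p : ℝ) : ℂ) - (m : ℂ) := by
    intro T₀ hT
    rw [norm_mul, norm_pow, Complex.norm_natCast, Real.log_mul (by positivity) (by linarith),
      Real.log_pow]
    have : -(↑m * Real.log ↑p + Real.log ‖T₀‖) / Real.log ↑p =
        -Real.log ‖T₀‖ / Real.log ↑p - (m : ℝ) := by
      field_simp
      ring
    rw [this]
    push_cast
    rfl
  have hne : ∀ T₀ : ℂ, 1 ≤ ‖T₀‖ →
      ((-Real.log ‖T₀‖ / Real.log p : ℝ) : ℂ) - (m : ℂ) + 1 ≠ 0 := by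
    intro T₀ hT h
    have h1 : -Real.log ‖T₀‖ / Real.log p - (m : ℝ) + 1 = 0 := by exact_mod_cast h
    have h2 : (2 : ℝ) ≤ (m : ℝ) := by exact_mod_cast hκ2
    have h3 : -Real.log ‖T₀‖ / Real.log p ≤ 0 := by
      apply div_nonpos_of_nonpos_of_nonneg _ hlog.le
      have := Real.log_nonneg hT
      linarith
    linarith
  constructor
  · intro hS N D hc hD T₀ h0 b hbf
    have hT := one_le_norm p f N D hc hD T₀ h0
    obtain ⟨N', D', h1, h2, h3, -⟩ := key N D hc hD T₀ h0
    have h6 := hS N' D' h1 h2 _ h3 _ (hb b hbf)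
    rw [hlogT T₀ hT, Polynomial.eval_mul, Polynomial.eval_comp, Polynomial.eval_add,
      Polynomial.eval_add, Polynomial.eval_X, Polynomial.eval_one, Polynomial.eval_C,
      sub_add_cancel] at h6
    exact (mul_eq_zero.1 h6).resolve_left (hne T₀ hT)
  · intro hS N D hc hD T₀ b hb0 hbf
    by_cases h0 : D.eval T₀ = 0
    · have hT := one_le_norm p f N D hc hD T₀ h0
      obtain ⟨N', D', h1, h2, h3, h4⟩ := key N D hc hD T₀ h0
      have hB0 : (Polynomial.X + 1) *
          b.comp (Polynomial.X + Polynomial.C (m : ℂ)) ≠ 0 := by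
        refine mul_ne_zero (fun h => ?_) (fun h => hb0 ?_)
        · have := congrArg (Polynomial.eval 0) h
          simp at this
        · have h3 := congrArg (fun q : Polynomial ℂ =>
            q.comp (Polynomial.X - Polynomial.C (m : ℂ))) h
          simp only [Polynomial.comp_assoc, Polynomial.add_comp, Polynomial.X_comp,
            Polynomial.C_comp, sub_add_cancel, Polynomial.comp_X, Polynomial.zero_comp] at h3
          exact h3
      have h6 := hS N' D' h1 h2 ((p : ℂ) ^ m * T₀) _ hB0 (hb b hbf)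
      rw [hlogT T₀ hT, rootMult_shift b hb0 _ _ (hne T₀ hT), sub_add_cancel, h4] at h6
      exact h6
    · rw [Polynomial.rootMultiplicity_eq_zero (p := D) h0]
      exact Nat.zero_le _

end Pool.Agent.K6.H7.UN
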