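import Pool.Agent.K6.H7.UN.Tr

set_option autoImplicit false
set_option linter.unusedSectionVars false

/-! # Transfer of the strong monodromy conjecture along stable equivalence -/

namespace Pool.Agent.K6.H7.UN

open MvPolynomial Pool.Agent.W427.SMC Pool.Agent.H628R4.TP Pool.Agent.N165.CU Pool.Agent.K6.H7.SC

section zeta

variable (p : ℕ) [Fact p.Prime] {V W : Type} [Fintype V] [Fintype W]

/-- the zeta function depends only on the normalised numbers of solutions -/
theorem zeta_congr (g : MvPolynomial V ℤ) (F : MvPolynomial W ℤ) (h : ∀ m, cN p F m = cN p g m)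
    (s : ℂ) (hs : 0 < s.re) : igusaZeta p F s = igusaZeta p g s := by
  have hp0 : (p : ℂ) ≠ 0 := by exact_mod_cast (Fact.out : p.Prime).ne_zero
  have h1 := parts.z p V g s hs
  have h2 := parts.z p W F s hs
  simp only [h] at h2
  rw [h1] at h2
  have hT : (p : ℂ) ^ (-s) ≠ 0 := fun h => hp0 ((Complex.cpow_eq_zero_iff _ _).1 h).1
  exact (mul_left_cancel₀ hT (sub_right_injective h2)).symm

/-- renaming the variables -/
theorem cN_rename (e : V ≃ W) (g : MvPolynomial V ℤ) (m : ℕ) : cN p (rename e g) m = cN p g m := by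
  unfold cN
  rw [solCount_rename, Fintype.card_congr e]

end zeta

/-- **The transfer of the strong monodromy conjecture.** -/
theorem zeta_transfer {V W : Type} [Fintype V] [Fintype W] (f : MvPolynomial V ℚ) (N : ℕ)
    (hN : N ≠ 0) (g : MvPolynomial V ℤ) (hg : map (Int.castRingHom ℚ) g = C (N : ℚ) * f)
    (F : MvPolynomial W ℤ) {k : ℕ} (hk : 2 ≤ k) (hrep : Rep (cone g) F k) (p : ℕ)
    [Fact p.Prime] :
    (StrongMonodromy p (map (Int.castRingHom ℚ) F) → StrongMonodromy p f) ∧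
      (StrongMonodromyOrders p (map (Int.castRingHom ℚ) F) → StrongMonodromyOrders p f) := by
  classical
  obtain ⟨κ, _, e, Φ, hκk, hΦ⟩ := id hrep
  have hκ2 : 2 ≤ Fintype.card κ := by rw [hκk]; exact hk
  have hp0 : (p : ℂ) ≠ 0 := by exact_mod_cast (Fact.out : p.Prime).ne_zero
  -- Bernstein-Sato
  have hb : ∀ b : Polynomial ℂ, IsBFunction (map (algebraMap ℚ ℂ) f) b →
      IsBFunction (map (algebraMap ℚ ℂ) (map (Int.castRingHom ℚ) F))
        ((Polynomial.X + 1) * b.comp (Polynomial.X + Polynomial.C (Fintype.card κ : ℂ))) := by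
    intro b hb
    have hNC : ((N : ℚ) : ℂ) ≠ 0 := by exact_mod_cast hN
    have h1 := bfun_scale _ ((N : ℚ) : ℂ) hNC b hb
    have h2 : C ((N : ℚ) : ℂ) * map (algebraMap ℚ ℂ) f = map (Int.castRingHom ℂ) g := by
      have h3 : map (algebraMap ℚ ℂ) (map (Int.castRingHom ℚ) g) = map (Int.castRingHom ℂ) g := by
        rw [MvPolynomial.map_map]
        congr 1
      rw [← h3, hg, map_mul, map_C]
      rfl
    rw [h2] at h1
    have h6 : map (algebraMap ℚ ℂ) (map (Int.castRingHom ℚ) F) = map (Int.castRingHom ℂ) F := by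
      rw [MvPolynomial.map_map]
      congr 1
    rw [h6, hκk]
    exact hrep.bf b h1
  -- zeta functions
  have hzeta : ∀ (Z : ℂ → ℂ), MeromorphicOn Z Set.univ →
      (∀ s : ℂ, 0 < s.re → Z s = padicZeta p f s) → ∃ Z' : ℂ → ℂ, MeromorphicOn Z' Set.univ ∧
      (∀ s : ℂ, 0 < s.re → Z' s = padicZeta p (map (Int.castRingHom ℚ) F) s) ∧
      ∀ s₀ : ℂ, meromorphicOrderAt Z s₀ < 0 → s₀.re ≤ 0 ∧
        meromorphicOrderAt Z' (s₀ - (Fintype.card κ : ℂ)) ≤ meromorphicOrderAt Z s₀ := by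
    intro Z hZ hZp
    set c : ℂ := ((‖((N : ℚ_[p]))‖ : ℝ) : ℂ) with hc
    have hc0 : c ≠ 0 := by
      rw [hc, Ne, Complex.ofReal_eq_zero, norm_eq_zero]
      exact_mod_cast hN
    have hcan : ∀ x, AnalyticAt ℂ (fun s : ℂ => c ^ s) x := by
      intro x
      have h : (fun s : ℂ => c ^ s) = fun s : ℂ => Complex.exp (Complex.log c * s) := by
        funext s
        rw [Complex.cpow_def_of_ne_zero hc0]
      rw [h]
      fun_prop
    have hcne : ∀ x : ℂ, c ^ x ≠ 0 := fun x h => hc0 ((Complex.cpow_eq_zero_iff _ _).1 h).1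
    obtain ⟨Z', h1, h2, h3⟩ := pole_transfer p (κ := κ) parts.c2 parts.z hκ2 g ((fun s : ℂ => c ^ s) * Z)
      (fun x hx => (hcan x).meromorphicAt.mul (hZ x hx)) (fun s hs => by
        rw [zeta_scale p f N g hg s, ← hZp s hs]
        rfl)
    refine ⟨Z', h1, fun s hs => ?_, fun s₀ hs₀ => ?_⟩
    · rw [h2 s hs, zeta_int]
      refine (zeta_congr p _ F (fun m => ?_) s hs).symm
      rw [← cN_rename p e F m, ← hΦ]
      unfold cN
      rw [c1 p m _ Φ]
    · have h4 : meromorphicOrderAt ((fun s : ℂ => c ^ s) * Z) s₀ = meromorphicOrderAt Z s₀ :=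
        meromorphicOrderAt_mul_of_ne_zero (hcan s₀) (hcne s₀)
      have h5 := h3 s₀ (by rw [h4]; exact hs₀)
      rwa [h4] at h5
  have hcast : ∀ s₀ : ℂ, (((s₀ - (Fintype.card κ : ℂ)).re : ℝ) : ℂ) =
      (s₀.re : ℂ) - (Fintype.card κ : ℂ) := by
    intro s₀
    rw [Complex.sub_re, Complex.natCast_re]
    push_cast
    rfl
  have hne : ∀ s₀ : ℂ, s₀.re ≤ 0 → (s₀.re : ℂ) - (Fintype.card κ : ℂ) + 1 ≠ 0 := by
    intro s₀ hs₀ h
    have h1 : s₀.re - (Fintype.card κ : ℝ) + 1 = 0 := by exact_mod_cast h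
    have h2 : (2 : ℝ) ≤ (Fintype.card κ : ℝ) := by exact_mod_cast hκ2
    linarith
  constructor
  · intro hS Z hZ hZp s₀ hs₀ b hbf
    obtain ⟨Z', h1, h2, h3⟩ := hzeta Z hZ hZp
    obtain ⟨h4, h5⟩ := h3 s₀ hs₀
    have h6 := hS Z' h1 h2 _ (lt_of_le_of_lt h5 hs₀) _ (hb b hbf)
    rw [hcast, Polynomial.eval_mul, Polynomial.eval_comp, Polynomial.eval_add, Polynomial.eval_add,
      Polynomial.eval_X, Polynomial.eval_one, Polynomial.eval_C, sub_add_cancel] at h6
    exact (mul_eq_zero.1 h6).resolve_left (hne s₀ h4)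
  · intro hS Z hZ hZp s₀ b hb0 hbf
    by_cases hs₀ : meromorphicOrderAt Z s₀ < 0
    · obtain ⟨Z', h1, h2, h3⟩ := hzeta Z hZ hZp
      obtain ⟨h4, h5⟩ := h3 s₀ hs₀
      have hB0 : (Polynomial.X + 1) *
          b.comp (Polynomial.X + Polynomial.C (Fintype.card κ : ℂ)) ≠ 0 := by
        refine mul_ne_zero (fun h => ?_) (fun h => hb0 ?_)
        · have := congrArg (Polynomial.eval 0) h
          simp at this
        · have h3 := congrArg (fun q : Polynomial ℂ =>
            q.comp (Polynomial.X - Polynomial.C (Fintype.card κ : ℂ))) h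
          simp only [Polynomial.comp_assoc, Polynomial.add_comp, Polynomial.X_comp,
            Polynomial.C_comp, sub_add_cancel, Polynomial.comp_X, Polynomial.zero_comp] at h3
          exact h3
      have h6 := hS Z' h1 h2 (s₀ - (Fintype.card κ : ℂ)) _ hB0 (hb b hbf)
      rw [hcast, rootMult_shift b hb0 _ _ (hne s₀ h4), sub_add_cancel] at h6
      exact h6.trans h5
    · push Not at hs₀
      refine le_trans ?_ hs₀
      have : -(b.rootMultiplicity (s₀.re : ℂ) : ℤ) ≤ 0 := by omega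
      exact_mod_cast this


/-- **The dictionary for the zeta functions.** -/
theorem zeta_dict {V W : Type} [Fintype V] [Fintype W] (g : MvPolynomial V ℤ)
    (F : MvPolynomial W ℤ) {k : ℕ} (hrep : Rep (cone g) F k) (p : ℕ) [Fact p.Prime] (s : ℂ)
    (hs : 0 < s.re) :
    (p : ℂ) ^ (-s) * ((p : ℂ) - (p : ℂ) ^ (-s)) * (1 - (p : ℂ) ^ (-(s + (k : ℂ)))) *
        padicZeta p (map (Int.castRingHom ℚ) F) s =
      ((p : ℂ) - 1) * ((p : ℂ) ^ (-s) - (p : ℂ) ^ (-(s + (k : ℂ))) +
        (1 - (p : ℂ) ^ (-s)) * (p : ℂ) ^ (-(s + (k : ℂ))) *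
          padicZeta p (map (Int.castRingHom ℚ) g) (s + (k : ℂ))) := by
  obtain ⟨κ, _, e, Φ, hκk, hΦ⟩ := hrep
  have h1 := zeta_rel p (κ := κ) parts.c2 parts.z g s hs
  have h2 : igusaZeta p F s = igusaZeta p (quad (cone g) κ) s := by
    refine zeta_congr p _ F (fun m => ?_) s hs
    rw [← cN_rename p e F m, ← hΦ]
    unfold cN
    rw [c1 p m _ Φ]
  rw [zeta_int, zeta_int, h2, ← hκk]
  exact h1

end Pool.Agent.K6.H7.UN
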